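import Pool.Agent.P8H10.ET.StmF

/-! # Package GP of project ET (helper75) -/

set_option autoImplicit false

open scoped PeriodPair

namespace Pool.Agent.P8H75.ET

open Pool.Agent.P8H10.ET

theorem om_ne (L : PeriodPair) : L.ω₁ ≠ 0 := by
  have := L.indep.ne_zero 0
  simpa using this

theorem pt (L : PeriodPair) (p : ℤ × ℤ) :
    ((L.latticeEquivProd.symm.toEquiv p : L.lattice) : ℂ) =
      L.ω₁ * ((p.1 : ℂ) + p.2 * (L.ω₂ / L.ω₁)) := by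
  have h1 : ((L.latticeEquivProd.symm.toEquiv p : L.lattice) : ℂ) = p.1 * L.ω₁ + p.2 * L.ω₂ :=
    L.latticeEquiv_symm_apply p
  have h0 := om_ne L
  rw [h1]
  field_simp

theorem wp_eq (L : PeriodPair) (z : ℂ) :
    ℘[L] z = (L.ω₁ ^ 2)⁻¹ * EP (z / L.ω₁) (L.ω₂ / L.ω₁) := by
  unfold PeriodPair.weierstrassP EP
  have h := (L.latticeEquivProd.symm.toEquiv.tsum_eq
    (fun l : L.lattice => (1 / (z - (l : ℂ)) ^ 2 - 1 / (l : ℂ) ^ 2)))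
  rw [← h, ← tsum_mul_left]
  apply tsum_congr
  intro p
  rw [pt]
  have h0 := om_ne L
  generalize (p.1 : ℂ) + p.2 * (L.ω₂ / L.ω₁) = u
  have e : z - L.ω₁ * u = L.ω₁ * (z / L.ω₁ - u) := by field_simp
  rw [e, mul_pow, mul_pow, one_div, one_div, mul_inv, mul_inv, one_div, one_div]
  ring

theorem zeta_eq (L : PeriodPair) (z : ℂ) :
    H667R3.zeta L z = (L.ω₁)⁻¹ * EZ (z / L.ω₁) (L.ω₂ / L.ω₁) := by
  unfold H667R3.zeta EZ
  have h := (L.latticeEquivProd.symm.toEquiv.tsum_eq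
    (fun l : L.lattice => (1 / (z - (l : ℂ)) + 1 / (l : ℂ) + z / (l : ℂ) ^ 2)))
  rw [← h, ← tsum_mul_left]
  apply tsum_congr
  intro p
  rw [pt]
  have h0 := om_ne L
  generalize (p.1 : ℂ) + p.2 * (L.ω₂ / L.ω₁) = u
  have e : z - L.ω₁ * u = L.ω₁ * (z / L.ω₁ - u) := by field_simp
  have e2 : z / (L.ω₁ * u) ^ 2 = (L.ω₁)⁻¹ * (z / L.ω₁ / u ^ 2) := by
    rw [mul_pow, div_eq_mul_inv, mul_inv, div_eq_mul_inv, div_eq_mul_inv]
    have : (L.ω₁ ^ 2)⁻¹ = (L.ω₁)⁻¹ * (L.ω₁)⁻¹ := by rw [sq, mul_inv]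
    rw [this]
    ring
  rw [e, e2, one_div, one_div, mul_inv, mul_inv, one_div, one_div]
  ring

theorem EP_neg (z τ : ℂ) : EP z (-τ) = EP z τ := by
  unfold EP
  rw [← ((Equiv.refl ℤ).prodCongr (Equiv.neg ℤ)).tsum_eq (fun p : ℤ × ℤ =>
    (1 / (z - ((p.1 : ℂ) + p.2 * τ)) ^ 2 - 1 / ((p.1 : ℂ) + p.2 * τ) ^ 2))]
  apply tsum_congr
  intro p
  simp

theorem EZ_neg (z τ : ℂ) : EZ z (-τ) = EZ z τ := by
  unfold EZ
  rw [← ((Equiv.refl ℤ).prodCongr (Equiv.neg ℤ)).tsum_eq (fun p : ℤ × ℤ =>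
    (1 / (z - ((p.1 : ℂ) + p.2 * τ)) + 1 / ((p.1 : ℂ) + p.2 * τ) +
      z / ((p.1 : ℂ) + p.2 * τ) ^ 2))]
  apply tsum_congr
  intro p
  simp

/-- GP -/
theorem gp : S_GP := by
  refine ⟨wp_eq, fun L => ?_, EP_neg, fun τ => ?_⟩
  · have h0 := om_ne L
    unfold H667R3.eta EH
    rw [zeta_eq, zeta_eq]
    have e1 : (L.ω₁ / 2 + L.ω₁) / L.ω₁ = 1 / 2 + 1 := by field_simp
    have e2 : L.ω₁ / 2 / L.ω₁ = 1 / 2 := by field_simp
    rw [e1, e2]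
    ring
  · unfold EH
    rw [EZ_neg, EZ_neg]

end Pool.Agent.P8H75.ET
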